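import Pool.Agent.P8H98.HY.D

/-!
Self-avoiding polygons and walks on `ℤ⁴` (hyperscaling, `d = 4`): the exponents `α₄` and `ν₄` exist as
soon as they exist along sparse sets of lengths.
-/

set_option autoImplicit false

open Filter Topology

namespace Pool.Agent.Results.MP_c0584e_pr.SparseFourDim

/-- `ω` is an `n`-step self-avoiding walk on `ℤ⁴` started at the origin. -/
def IsSAW (n : ℕ) (ω : Fin (n + 1) → Fin 4 → ℤ) : Prop :=
  ω 0 = 0 ∧ (∀ i : Fin n, ∑ j, |ω i.succ j - ω i.castSucc j| = 1) ∧ Function.Injective ω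

/-- `ω` is a self-avoiding polygon of length `n` on `ℤ⁴`: `ω(0) = ω(n) = 0`, nearest-neighbour steps,
`ω(0), ..., ω(n-1)` distinct. -/
def IsPolygon (n : ℕ) (ω : Fin (n + 1) → Fin 4 → ℤ) : Prop :=
  ω 0 = 0 ∧ ω (Fin.last n) = 0 ∧ (∀ i : Fin n, ∑ j, |ω i.succ j - ω i.castSucc j| = 1) ∧
    Function.Injective (fun i : Fin n => ω i.castSucc)

/-- `C_n`, the number of `n`-step self-avoiding walks -/
noncomputable def C (n : ℕ) : ℝ := ({ω | IsSAW n ω}.ncard : ℝ)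

/-- `A_n`, the number of self-avoiding polygons of length `n` -/
noncomputable def A (n : ℕ) : ℝ := ({ω | IsPolygon n ω}.ncard : ℝ)

/-- the Euclidean norm -/
noncomputable def norm2 (x : Fin 4 → ℤ) : ℝ := Real.sqrt (∑ j, (x j : ℝ) ^ 2)

/-- the moment `⟨|ω(n)|^p⟩` over the `n`-step self-avoiding walks -/
noncomputable def moment (p : ℝ) (n : ℕ) : ℝ :=
  (∑ᶠ ω ∈ {ω | IsSAW n ω}, norm2 (ω (Fin.last n)) ^ p) / ({ω | IsSAW n ω}.ncard : ℝ)

/-- The gaps of `S` are `o(n^(1/4) √(log n))`: for every `δ > 0` every large `n` lies in an interval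
`[m, m + δ m^(1/4) √(log m)]` with `m ∈ S`. -/
def Gaps (S : Set ℕ) : Prop :=
  ∀ δ : ℝ, 0 < δ → ∀ᶠ n : ℕ in atTop, ∃ m ∈ S, m ≤ n ∧
    (n : ℝ) ≤ m + δ * ((m : ℝ) ^ (1 / 4 : ℝ) * Real.sqrt (Real.log m))

/-- `y(n) = n^(a + o(1))` as `n → ∞` in `S` -/
def Exponent (S : Set ℕ) (y : ℕ → ℝ) (a : ℝ) : Prop :=
  ∀ ε : ℝ, 0 < ε → ∀ᶠ n : ℕ in atTop, n ∈ S → (n : ℝ) ^ (a - ε) ≤ y n ∧ y n ≤ (n : ℝ) ^ (a + ε)

/-- **Theorem (`d = 4`).** Let `μ = lim C_n^(1/n)` on `ℤ⁴` (`μ ≥ 27/5`).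
(1) If `μ^(-n) A_n = n^(a + o(1))` along a set of even numbers with gaps `o(n^(1/4) √(log n))`, then
along all even `n`: the exponent `α₄ = a + 2` exists.
(2) The same for `⟨|ω(n)|^p⟩`, every real `p ≥ 0`, and the lengths of one parity.
(3) If `μ^(-n) A_n = n^(a + o(1))` along a set `S` of even numbers and `⟨|ω(n)|²⟩ = n^(b + o(1))` along a
set `T`, the gaps of `S`, of the even part of `T` and of the odd part of `T` being
`o(n^(1/4) √(log n))`, then `α₄ = a + 2` and `ν₄ = b / 2` exist; the hyperscaling relation for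
`d = 4` is then `a = -2 b`. -/
theorem result : ∃ μ : ℝ, 27 / 5 ≤ μ ∧
    Tendsto (fun n : ℕ => C n ^ (1 / (n : ℝ))) atTop (𝓝 μ) ∧
    (∀ (S : Set ℕ) (a : ℝ), (∀ m ∈ S, Even m) → Gaps S →
      Exponent S (fun n => A n / μ ^ n) a → Exponent {n | Even n} (fun n => A n / μ ^ n) a) ∧
    (∀ (p : ℝ), 0 ≤ p → ∀ (S : Set ℕ) (b : ℝ) (q : ℕ), (∀ m ∈ S, m % 2 = q) → Gaps S →
      Exponent S (moment p) b → Exponent {n | n % 2 = q} (moment p) b) ∧
    ∀ (S T : Set ℕ) (a b : ℝ), (∀ m ∈ S, Even m) → Gaps S →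
      (∀ q : ℕ, q ≤ 1 → Gaps {m ∈ T | m % 2 = q}) →
      Exponent S (fun n => A n / μ ^ n) a → Exponent T (moment 2) b →
      Exponent {n | Even n} (fun n => A n / μ ^ n) a ∧ Exponent Set.univ (moment 2) b := by
  have hA : ∀ (S : Set ℕ) (a : ℝ), (∀ m ∈ S, Even m) → Gaps S →
      Exponent S (fun n => A n / Pool.Agent.P8H98.DF.μ4 ^ n) a →
      Exponent {n | Even n} (fun n => A n / Pool.Agent.P8H98.DF.μ4 ^ n) a := by
    intro S a hS hG hE
    obtain ⟨K, hK, hst⟩ := Pool.Agent.P8H98.HY.astep (a := a) (S := S) hE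
    have h := Pool.Agent.P8H98.HY.crit (y := fun n => A n / Pool.Agent.P8H98.DF.μ4 ^ n) (a := a)
      (q := 0) (S := S) hK hst (fun m hm => Nat.even_iff.1 (hS m hm)) hG hE
    intro ε hε
    filter_upwards [h ε hε] with n hn he
    exact hn (Nat.even_iff.1 he)
  have hM : ∀ (p : ℝ), 0 ≤ p → ∀ (S : Set ℕ) (b : ℝ) (q : ℕ), (∀ m ∈ S, m % 2 = q) → Gaps S →
      Exponent S (moment p) b → Exponent {n | n % 2 = q} (moment p) b := by
    intro p hp S b q hS hG hE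
    obtain ⟨K, hK, hst⟩ := Pool.Agent.P8H98.HY.mstep hp
    exact Pool.Agent.P8H98.HY.crit (y := moment p) (a := b) (q := q) (S := S) hK
      (hst.mono fun m hm _ => hm) hS hG hE
  refine ⟨Pool.Agent.P8H98.DF.μ4, Pool.Agent.P8H4.DF.mu_thm, Pool.Agent.P8H98.DF.cN_lim, hA, hM,
    fun S T a b hS hG hT hEa hEb => ⟨hA S a hS hG hEa, fun ε hε => ?_⟩⟩
  have hsub : ∀ q : ℕ, Exponent {m ∈ T | m % 2 = q} (moment 2) b := fun q ε hε => by
    filter_upwards [hEb ε hε] with n hn hq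
    exact hn hq.1
  have h0 := hM 2 (by norm_num) _ b 0 (fun m hm => hm.2) (hT 0 (by norm_num)) (hsub 0) ε hε
  have h1 := hM 2 (by norm_num) _ b 1 (fun m hm => hm.2) (hT 1 le_rfl) (hsub 1) ε hε
  filter_upwards [h0, h1] with n hn0 hn1 _
  rcases Nat.mod_two_eq_zero_or_one n with h | h
  · exact hn0 h
  · exact hn1 h

end Pool.Agent.Results.MP_c0584e_pr.SparseFourDim
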